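import Pool.Agent.MPf476d2.Final

/-!
If `U` is universal by adjunction and `X` is a co-c.e. set of strings with
`0 < Omega U X`, then `Omega U X` is Martin-Löf random.
-/

open Pool.Agent.MPf476d2 Encodable

namespace Pool.Agent.Results.MP_f476d2_lc.CoCeHaltingRandom

theorem exists_mem_of_pos {U : List Bool →. List Bool} {X : Set (List Bool)}
    (h : 0 < Omega U X) : ∃ x, x ∈ X := by
  by_contra hcon
  push Not at hcon
  have : Omega U X = 0 := by
    unfold Omega
    have hz : ∀ p : List Bool, Set.indicator {p | ∃ x ∈ X, x ∈ U p}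
        (fun p => (1 / 2 : ℝ) ^ p.length) p = 0 := by
      intro p
      have hp : p ∉ {p | ∃ x ∈ X, x ∈ U p} := by
        rintro ⟨x, hx, -⟩
        exact hcon x hx
      exact Set.indicator_of_notMem hp _
    rw [tsum_congr hz, tsum_zero]
  rw [this] at h
  exact lt_irrefl 0 h

/-- Restricted halting probabilities of co-c.e. sets are random for machines that are universal
by adjunction. -/
theorem result (U : List Bool →. List Bool) (hU : UniversalByAdjunction U)
    (X : Set (List Bool)) (hX : CoCE X) (hpos : 0 < Omega U X) : MLRandom (Omega U X) := by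
  intro V hV
  by_contra hcon
  push Not at hcon
  obtain ⟨x0, hx0⟩ := exists_mem_of_pos hpos
  obtain ⟨bU, hb, b1, b2, b3⟩ := exists_births hU.1.1
  obtain ⟨dW, hd, hd2⟩ := exists_enum hX
  obtain ⟨tV, ht, ht2⟩ := exists_enum hV.1
  let e : Env := ⟨bU, dW, tV, hb, hd, ht⟩
  obtain ⟨M, σ, -, hall, -, -, hUM⟩ := hU.2
  obtain ⟨j, hj⟩ := hall (e.machine x0) (e.machine_isMachine x0)
  have htau : Env.tau (encode (σ j)) = σ j := by
    unfold Env.tau
    rw [encodek]
    rfl
  have g : Good e (encode (σ j)) U X V x0 := by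
    refine ⟨hU.1, b1, b2, b3, hd2, fun c i => ht2 (c, i), hV.2, hx0, fun q => ?_⟩
    unfold Env.pre
    rw [htau, List.append_assoc, hUM, hj, List.append_assoc, e.machine_code]
  exact g.not_captured hcon

end Pool.Agent.Results.MP_f476d2_lc.CoCeHaltingRandom
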